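import Pool.Agent.AEC.StmtsB

/-!
# Squad AEC, row STB: stabilization
-/

open FirstOrder FirstOrder.Language Cardinal Set

universe u

namespace Pool.Agent.AEC.H91

theorem stb (trc : TrcStmt.{u}) : StbStmt.{u} := by
  intro L κ K A T D Q hD hQ hA
  by_contra hcon
  have hstep : ∀ (B : K.Mod) (e : K.Hom A B), Q B →
      ∃ (C : K.Mod) (f : K.Hom B C), Q C ∧ D C (f.comp e) ≠ D B e := by
    intro B e hB
    by_contra hno
    apply hcon
    refine ⟨B, e, hB, fun C f hC => ?_⟩
    by_contra hne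
    exact hno ⟨C, f, hC, hne⟩
  have hc : ℵ₀ ≤ Order.succ (max #T ℵ₀) := (le_max_right _ _).trans (Order.le_succ _)
  have hne : Nonempty (Order.succ (max #T ℵ₀)).ord.ToType :=
    Cardinal.nonempty_ord_toType (by
      intro h
      rw [h] at hc
      exact absurd hc (not_le.2 Cardinal.aleph0_pos))
  have hmax : NoMaxOrder (Order.succ (max #T ℵ₀)).ord.ToType := Cardinal.noMaxOrder hc
  obtain ⟨F, m, b, -, -, hb, -, hR⟩ := trc L κ K A Q
    (fun A' B e f => D B (f.comp e) ≠ D A' e) (Order.succ (max #T ℵ₀)).ord.ToType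
    (max #T ℵ₀) (fun j => Order.lt_succ_iff.1 (Cardinal.mk_Iio_toType_ord_lt j)) hQ hA hstep
  have hb' : ∀ i j h, (m i j h).comp (b i) = b j := fun i j h =>
    AEC.Hom.ext (fun x => hb i j h x)
  have hmono : ∀ i j, i ≤ j → D (F j) (b j) ⊆ D (F i) (b i) := by
    intro i j h
    rw [← hb' i j h]
    exact hD _ _ _ _
  have hcov : ∀ i j, i ⋖ j → D (F j) (b j) ≠ D (F i) (b i) := by
    intro i j h
    have := hR i j h
    rwa [hb' i j h.le] at this
  have hex : ∀ i, ∃ (j : (Order.succ (max #T ℵ₀)).ord.ToType) (t : T), i ⋖ j ∧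
      t ∈ D (F i) (b i) ∧ t ∉ D (F j) (b j) := by
    intro i
    letI : SuccOrder (Order.succ (max #T ℵ₀)).ord.ToType := SuccOrder.ofLinearWellFoundedLT _
    have hij : i ⋖ Order.succ i := Order.covBy_succ i
    have h1 := hmono i _ hij.le
    have h2 := hcov i _ hij
    obtain ⟨t, ht, ht'⟩ := Set.not_subset.1 (fun h => h2 (Set.Subset.antisymm h1 h))
    exact ⟨_, t, hij, ht, ht'⟩
  choose j t hj ht ht' using hex
  have hinj : Function.Injective t := by
    have key : ∀ i i', i < i' → t i ≠ t i' := by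
      intro i i' h heq
      have h1 : j i ≤ i' := (hj i).ge_of_gt h
      apply ht' i
      rw [heq]
      exact hmono _ _ h1 (ht i')
    intro i i' h
    rcases lt_trichotomy i i' with h1 | h1 | h1
    · exact absurd h (key _ _ h1)
    · exact h1
    · exact absurd h.symm (key _ _ h1)
  have h1 := Cardinal.mk_le_of_injective hinj
  rw [Cardinal.mk_ord_toType] at h1
  exact absurd (h1.trans (le_max_left _ ℵ₀)) (not_le.2 (Order.lt_succ _))

end Pool.Agent.AEC.H91
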